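import Mathlib

/-!
# Correlations of the half-interval modulo a prime

For an odd prime `p` let `ε a = (-1) ^ (the residue of a in [0, p))`; up to multiplication by two
this is the sign of the residue of `a` in `(-p/2, p/2)`.  We bound `∑ ε (t) ε (v t)`.
-/

set_option autoImplicit false

namespace Pool.Agent.K6.H54.Jac

open Finset

/-- the number of `x` with `w x < k p` -/
def cc (p w k : ℕ) : ℕ := (k * p + (w - 1)) / w

theorem cc_le_iff {p w k x : ℕ} (hw : 0 < w) : cc p w k ≤ x ↔ k * p ≤ w * x := by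
  unfold cc
  rw [← Nat.lt_succ_iff, Nat.div_lt_iff_lt_mul hw, Nat.succ_eq_add_one, add_mul, one_mul,
    mul_comm x w]
  omega

theorem lt_cc_iff {p w k x : ℕ} (hw : 0 < w) : x < cc p w k ↔ w * x < k * p := by
  have h := cc_le_iff (p := p) (k := k) (x := x) hw
  omega

theorem cc_zero {p w : ℕ} (hw : 0 < w) : cc p w 0 = 0 := by
  have h := (cc_le_iff (p := p) (k := 0) (x := 0) hw).2 (by simp)
  omega

theorem cc_mono {p w k : ℕ} : cc p w k + p / w ≤ cc p w (k + 1) := by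
  unfold cc
  have h : (k + 1) * p + (w - 1) = (k * p + (w - 1)) + p := by ring
  rw [h]
  exact Nat.div_add_div_le_add_div

theorem cc_up {p w k : ℕ} (hw : 0 < w) : cc p w (k + 1) ≤ cc p w k + p / w + 1 := by
  rw [cc_le_iff hw]
  have h1 := (cc_le_iff (p := p) (k := k) (x := cc p w k) hw).1 le_rfl
  have h2 : p < w * (p / w + 1) := by
    have := Nat.lt_mul_div_succ p hw
    simpa using this
  calc (k + 1) * p = k * p + p := by ring
    _ ≤ w * cc p w k + w * (p / w + 1) := by omega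
    _ = w * (cc p w k + p / w + 1) := by ring

/-- The sum over `x < p` grouped by `w x / p`. -/
theorem sum_group {p w : ℕ} (hw : 0 < w) (hp : 0 < p) (f : ℕ → ℕ → ℤ) :
    ∑ x ∈ range p, f x (w * x / p) =
      ∑ k ∈ range w, ∑ x ∈ Ico (cc p w k) (cc p w (k + 1)), f x k := by
  have hmap : ∀ x ∈ range p, w * x / p ∈ range w := by
    intro x hx
    rw [mem_range] at hx ⊢
    rw [Nat.div_lt_iff_lt_mul hp]
    exact Nat.mul_lt_mul_of_pos_left hx hw
  rw [← Finset.sum_fiberwise_of_maps_to hmap]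
  refine Finset.sum_congr rfl fun k hk => ?_
  rw [mem_range] at hk
  have hset : (range p).filter (fun x => w * x / p = k) =
      Ico (cc p w k) (cc p w (k + 1)) := by
    ext x
    rw [mem_filter, mem_range, mem_Ico, cc_le_iff hw, lt_cc_iff hw]
    constructor
    · rintro ⟨_, h⟩
      have h1 := Nat.div_mul_le_self (w * x) p
      have h2 := Nat.lt_mul_div_succ (w * x) hp
      rw [h] at h1 h2
      refine ⟨h1, ?_⟩
      rw [mul_comm (k + 1) p]
      exact h2
    · rintro ⟨h1, h2⟩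
      refine ⟨?_, ?_⟩
      · by_contra h3
        push Not at h3
        have h4 : w * p ≤ w * x := Nat.mul_le_mul_left w h3
        have h5 : (k + 1) * p ≤ w * p := Nat.mul_le_mul_right p hk
        omega
      · exact Nat.div_eq_of_lt_le h1 h2
  rw [hset]
  refine Finset.sum_congr rfl fun x hx => ?_
  rw [mem_Ico, cc_le_iff hw, lt_cc_iff hw] at hx
  rw [Nat.div_eq_of_lt_le hx.1 hx.2]

/-- bounds for the alternating sum of the run lengths -/
theorem alt_bounds (d : ℕ → ℤ) (l : ℤ) (h : ∀ k, l ≤ d k ∧ d k ≤ l + 1) (h0 : d 0 = l + 1) (m : ℕ) :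
    -(m : ℤ) ≤ ∑ k ∈ range (2 * (m + 1)), (-1 : ℤ) ^ k * d k ∧
      ∑ k ∈ range (2 * (m + 1)), (-1 : ℤ) ^ k * d k ≤ m + 1 := by
  induction m with
  | zero =>
    rw [show 2 * (0 + 1) = 2 from rfl, Finset.sum_range_succ, Finset.sum_range_one]
    have h1 := h 1
    simp only [pow_zero, one_mul, pow_one]
    constructor <;> push_cast <;> linarith
  | succ m ih =>
    rw [show 2 * (m + 1 + 1) = 2 * (m + 1) + 1 + 1 from by ring, Finset.sum_range_succ,
      Finset.sum_range_succ]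
    have e1 : (-1 : ℤ) ^ (2 * (m + 1)) = 1 := by rw [pow_mul]; norm_num
    have e2 : (-1 : ℤ) ^ (2 * (m + 1) + 1) = -1 := by rw [pow_succ, e1]; norm_num
    rw [e1, e2]
    have h1 := h (2 * (m + 1))
    have h2 := h (2 * (m + 1) + 1)
    push_cast
    constructor <;> linarith [ih.1, ih.2]

/-- The Hardy sum `∑ (-1) ^ ⌊w x / p⌋` for odd `w = 2 m + 3`. -/
theorem odd_sum {p m : ℕ} (hw : ¬ (2 * m + 3) ∣ p) (hp : 0 < p) :
    ((p / (2 * m + 3) : ℕ) : ℤ) - m ≤ ∑ x ∈ range p, (-1 : ℤ) ^ ((2 * m + 3) * x / p) ∧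
      ∑ x ∈ range p, (-1 : ℤ) ^ ((2 * m + 3) * x / p) ≤ ((p / (2 * m + 3) : ℕ) : ℤ) + m + 1 := by
  set w := 2 * m + 3 with hwdef
  have hw0 : 0 < w := by omega
  set l := p / w with hl
  have hgr := sum_group hw0 hp (fun _ k => (-1 : ℤ) ^ k)
  rw [hgr]
  have hinner : ∀ k, ∑ x ∈ Ico (cc p w k) (cc p w (k + 1)), (-1 : ℤ) ^ k =
      (-1 : ℤ) ^ k * (((cc p w (k + 1) : ℕ) : ℤ) - (cc p w k : ℕ)) := by
    intro k
    have h1 : cc p w k ≤ cc p w (k + 1) := le_trans (Nat.le_add_right _ _) cc_mono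
    rw [Finset.sum_const, Nat.card_Ico, nsmul_eq_mul, mul_comm, Nat.cast_sub h1]
  simp only [hinner]
  have hd : ∀ k, (l : ℤ) ≤ ((cc p w (k + 1) : ℕ) : ℤ) - (cc p w k : ℕ) ∧
      ((cc p w (k + 1) : ℕ) : ℤ) - (cc p w k : ℕ) ≤ (l : ℤ) + 1 := by
    intro k
    have h1 := cc_mono (p := p) (w := w) (k := k)
    have h2 := cc_up (p := p) (k := k) hw0
    omega
  have hdm := Nat.div_add_mod p w
  have hmod : 0 < p % w := by
    rcases Nat.eq_zero_or_pos (p % w) with h | h
    · exact absurd (Nat.dvd_of_mod_eq_zero h) hw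
    · exact h
  have hmodlt := Nat.mod_lt p hw0
  have h0 : ((cc p w (0 + 1) : ℕ) : ℤ) - (cc p w 0 : ℕ) = (l : ℤ) + 1 := by
    rw [cc_zero hw0]
    have h1 : l + 1 ≤ cc p w (0 + 1) := by
      by_contra h2
      have h3 : cc p w (0 + 1) ≤ l := by omega
      rw [cc_le_iff hw0] at h3
      rw [← hl] at hdm
      omega
    have h2 := hd 0
    rw [cc_zero hw0] at h2
    omega
  have hlast : ((cc p w (2 * (m + 1) + 1) : ℕ) : ℤ) - (cc p w (2 * (m + 1)) : ℕ) = l := by
    have e1 : 2 * (m + 1) + 1 = w := by omega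
    have h1 : cc p w w = p := by
      apply le_antisymm
      · rw [cc_le_iff hw0]
      · by_contra h2
        push Not at h2
        have h3 := (cc_le_iff (p := p) (k := w) (x := cc p w w) hw0).1 le_rfl
        have h4 := Nat.mul_lt_mul_of_pos_left h2 hw0
        omega
    have h2 : p - l ≤ cc p w (2 * (m + 1)) := by
      by_contra h2
      push Not at h2
      have hle : l ≤ p := Nat.div_le_self p w
      have h3 : cc p w (2 * (m + 1)) ≤ p - l - 1 := by omega
      rw [cc_le_iff hw0] at h3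
      have h4 : l + 1 ≤ p := by omega
      have h5 : w * (p - l - 1) + w * l + w = w * p := by
        rw [← mul_add, ← Nat.mul_succ]
        congr 1
        omega
      have h6 : 2 * (m + 1) * p + p = w * p := by
        rw [← e1]; ring
      rw [← hl] at hdm
      omega
    rw [e1, h1]
    have h3 := hd (2 * (m + 1))
    rw [e1, h1] at h3
    have hle : l ≤ p := Nat.div_le_self p w
    omega
  have hb := alt_bounds (fun k => ((cc p w (k + 1) : ℕ) : ℤ) - (cc p w k : ℕ)) l hd h0 m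
  have hsplit : range w = range (2 * (m + 1) + 1) := by congr 1
  rw [hsplit, Finset.sum_range_succ, hlast]
  have e1 : (-1 : ℤ) ^ (2 * (m + 1)) = 1 := by rw [pow_mul]; norm_num
  rw [e1]
  constructor <;> linarith [hb.1, hb.2]

theorem alt_Ico (a b : ℕ) : -1 ≤ ∑ x ∈ Ico a b, (-1 : ℤ) ^ x ∧ ∑ x ∈ Ico a b, (-1 : ℤ) ^ x ≤ 1 := by
  rcases le_or_gt b a with h | h
  · rw [Finset.Ico_eq_empty_of_le h]
    simp
  · obtain ⟨n, rfl⟩ := Nat.exists_eq_add_of_lt h
    have h1 : ∀ a n : ℕ, ∑ x ∈ Ico a (a + n), (-1 : ℤ) ^ x =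
        (-1) ^ a * (if Even n then 0 else 1) := by
      intro a n
      rw [Finset.sum_Ico_eq_sum_range, Nat.add_sub_cancel_left]
      simp only [pow_add]
      rw [← Finset.mul_sum]
      congr 1
      induction n with
      | zero => simp
      | succ n ih =>
        rw [Finset.sum_range_succ, ih]
        rcases Nat.even_or_odd n with h | h
        · simp [h, Nat.even_add_one, h.neg_one_pow]
        · have h' : ¬ Even n := Nat.not_even_iff_odd.2 h
          simp [h', Nat.even_add_one, h.neg_one_pow]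
    rw [show a + n + 1 = a + (n + 1) from rfl, h1]
    rcases Nat.even_or_odd a with h2 | h2 <;> rw [h2.neg_one_pow] <;> split_ifs <;> norm_num

theorem alt_Ico_zero (b : ℕ) : 0 ≤ ∑ x ∈ Ico 0 b, (-1 : ℤ) ^ x := by
  rw [← Finset.range_eq_Ico]
  induction b using Nat.twoStepInduction with
  | zero => simp
  | one => simp
  | more n ih1 _ =>
    rw [Finset.sum_range_succ, Finset.sum_range_succ]
    have : (-1 : ℤ) ^ (n + 1) = - (-1) ^ n := by rw [pow_succ]; ring
    rw [this]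
    linarith

/-- The Hardy sum `∑ (-1) ^ (x + ⌊e x / p⌋)`. -/
theorem even_sum {p e : ℕ} (he : 0 < e) (hp : 0 < p) :
    -(e : ℤ) ≤ ∑ x ∈ range p, (-1 : ℤ) ^ (x + e * x / p) - 1 ∧
      ∑ x ∈ range p, (-1 : ℤ) ^ (x + e * x / p) - 1 ≤ e := by
  have hgr := sum_group he hp (fun x k => (-1 : ℤ) ^ (x + k))
  rw [hgr]
  obtain ⟨n, rfl⟩ := Nat.exists_eq_succ_of_ne_zero he.ne'
  rw [Finset.sum_range_succ', cc_zero he]
  have hk : ∀ k, -1 ≤ ∑ x ∈ Ico (cc p n.succ (k + 1)) (cc p n.succ (k + 1 + 1)),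
      (-1 : ℤ) ^ (x + (k + 1)) ∧
      ∑ x ∈ Ico (cc p n.succ (k + 1)) (cc p n.succ (k + 1 + 1)), (-1 : ℤ) ^ (x + (k + 1)) ≤ 1 := by
    intro k
    have h1 := alt_Ico (cc p n.succ (k + 1)) (cc p n.succ (k + 1 + 1))
    simp only [pow_add _ _ (k + 1)]
    rw [← Finset.sum_mul]
    rcases neg_one_pow_eq_or ℤ (k + 1) with h2 | h2 <;> rw [h2] <;> constructor <;>
      linarith [h1.1, h1.2]
  have h1 : -(n : ℤ) ≤ ∑ k ∈ range n, ∑ x ∈ Ico (cc p n.succ (k + 1)) (cc p n.succ (k + 1 + 1)),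
      (-1 : ℤ) ^ (x + (k + 1)) := by
    have := Finset.card_nsmul_le_sum (range n) (fun k => ∑ x ∈ Ico (cc p n.succ (k + 1))
      (cc p n.succ (k + 1 + 1)), (-1 : ℤ) ^ (x + (k + 1))) (-1) (fun k _ => (hk k).1)
    simpa using this
  have h2 : ∑ k ∈ range n, ∑ x ∈ Ico (cc p n.succ (k + 1)) (cc p n.succ (k + 1 + 1)),
      (-1 : ℤ) ^ (x + (k + 1)) ≤ n := by
    have := Finset.sum_le_card_nsmul (range n) (fun k => ∑ x ∈ Ico (cc p n.succ (k + 1))
      (cc p n.succ (k + 1 + 1)), (-1 : ℤ) ^ (x + (k + 1))) 1 (fun k _ => (hk k).2)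
    simpa using this
  have h3 := alt_Ico 0 (cc p n.succ (0 + 1))
  have h4 := alt_Ico_zero (cc p n.succ (0 + 1))
  simp only [add_zero]
  push_cast
  constructor <;> linarith [h3.2]

end Pool.Agent.K6.H54.Jac
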