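import Mathlib
import Pool.Agent.K6.H54.Jac.Comb

/-!
# Small sets of residues and the half-interval modulo a prime
-/

set_option autoImplicit false

namespace Pool.Agent.K6.H54.Jac

open Finset

variable {p : ℕ} [hpf : Fact p.Prime]

/-- parity sign -/
def ep (a : ZMod p) : ℤ := (-1) ^ a.val

/-- the correlation -/
def Dz (v : ZMod p) : ℤ := ∑ t : ZMod p, ep t * ep (v * t)

theorem Dz_eq (v : ZMod p) : Dz v = ∑ x ∈ range p, (-1 : ℤ) ^ (x + (v.val * x) % p) := by
  unfold Dz ep
  refine Finset.sum_nbij' (fun t => t.val) (fun x => (x : ZMod p)) ?_ ?_ ?_ ?_ ?_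
  · intro t _
    exact mem_range.2 (ZMod.val_lt t)
  · intro x _
    exact mem_univ _
  · intro t _
    exact ZMod.natCast_zmod_val t
  · intro x hx
    exact ZMod.val_cast_of_lt (mem_range.1 hx)
  · intro t _
    rw [pow_add, ZMod.val_mul]

omit hpf in
theorem pow_mod_eq (hodd : Odd p) (n x : ℕ) :
    (-1 : ℤ) ^ ((n * x) % p) = (-1) ^ (n * x) * (-1) ^ (n * x / p) := by
  have h1 : (-1 : ℤ) ^ (n * x) = (-1) ^ (n * x / p) * (-1) ^ ((n * x) % p) := by
    conv_lhs => rw [← Nat.div_add_mod (n * x) p]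
    rw [pow_add, pow_mul, hodd.neg_one_pow]
  rw [h1]
  have h2 : ((-1 : ℤ) ^ (n * x / p)) * (-1) ^ (n * x / p) = 1 := by
    rw [← pow_add, ← two_mul, pow_mul]
    norm_num
  calc (-1 : ℤ) ^ ((n * x) % p) = ((-1 : ℤ) ^ (n * x / p) * (-1) ^ (n * x / p)) *
        (-1) ^ ((n * x) % p) := by rw [h2, one_mul]
    _ = _ := by ring

theorem Dz_odd (hodd : Odd p) {v : ZMod p} (hv : Odd v.val) :
    Dz v = ∑ x ∈ range p, (-1 : ℤ) ^ (v.val * x / p) := by
  rw [Dz_eq]
  refine Finset.sum_congr rfl fun x _ => ?_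
  rw [pow_add, pow_mod_eq hodd, ← mul_assoc]
  have h1 : (-1 : ℤ) ^ x * (-1) ^ (v.val * x) = 1 := by
    rw [pow_mul, hv.neg_one_pow, ← pow_add, ← two_mul, pow_mul]
    norm_num
  rw [h1, one_mul]

theorem Dz_even (hodd : Odd p) {v : ZMod p} (hv : Even v.val) :
    Dz v = ∑ x ∈ range p, (-1 : ℤ) ^ (x + v.val * x / p) := by
  rw [Dz_eq]
  refine Finset.sum_congr rfl fun x _ => ?_
  rw [pow_add, pow_mod_eq hodd, pow_add]
  have h1 : (-1 : ℤ) ^ (v.val * x) = 1 := by
    rw [pow_mul, hv.neg_one_pow, one_pow]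
  rw [h1, one_mul]

theorem ep_zero : ep (0 : ZMod p) = 1 := by
  simp [ep]

theorem ep_neg (hodd : Odd p) {a : ZMod p} (ha : a ≠ 0) : ep (-a) = - ep a := by
  unfold ep
  rw [ZMod.neg_val, if_neg ha]
  have hlt := ZMod.val_lt a
  have h1 : (-1 : ℤ) ^ (p - a.val) * (-1) ^ a.val = -1 := by
    rw [← pow_add, Nat.sub_add_cancel hlt.le, hodd.neg_one_pow]
  have h2 : (-1 : ℤ) ^ a.val * (-1) ^ a.val = 1 := by
    rw [← pow_add, ← two_mul, pow_mul]
    norm_num
  calc (-1 : ℤ) ^ (p - a.val) = (-1 : ℤ) ^ (p - a.val) * ((-1 : ℤ) ^ a.val * (-1) ^ a.val) := by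
        rw [h2, mul_one]
    _ = ((-1 : ℤ) ^ (p - a.val) * (-1) ^ a.val) * (-1) ^ a.val := by ring
    _ = _ := by rw [h1]; ring

omit hpf in
theorem ep_sq (a : ZMod p) : ep a * ep a = 1 := by
  unfold ep
  rw [← pow_add, ← two_mul, pow_mul]
  norm_num

omit hpf in
theorem ep_eq (a : ZMod p) : ep a = 1 ∨ ep a = -1 := neg_one_pow_eq_or ℤ _

/-- the sum over the nonzero residues -/
theorem Dz_erase (v : ZMod p) : Dz v - 1 = ∑ t ∈ univ.erase (0 : ZMod p), ep t * ep (v * t) := by
  unfold Dz
  rw [← Finset.add_sum_erase univ (fun t => ep t * ep (v * t)) (mem_univ (0 : ZMod p))]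
  simp [ep_zero]

theorem Dz_neg (hodd : Odd p) {v : ZMod p} (hv : v ≠ 0) : Dz (-v) - 1 = -(Dz v - 1) := by
  rw [Dz_erase, Dz_erase, ← Finset.sum_neg_distrib]
  refine Finset.sum_congr rfl fun t ht => ?_
  have ht0 : t ≠ 0 := ne_of_mem_erase ht
  rw [neg_mul, ep_neg hodd (mul_ne_zero hv ht0)]
  ring

theorem Dz_one : Dz (1 : ZMod p) = p := by
  unfold Dz
  simp [ep_sq, ZMod.card]

omit hpf in
theorem aux_mul {k l : ℕ} (hk : 1 ≤ k) (hl : 2 ≤ l) (h : (2 * k + 3) * l < p) :
    2 * (2 * k + 3) + 5 * l ≤ p + 9 := by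
  obtain ⟨k', rfl⟩ := Nat.exists_eq_add_of_le hk
  obtain ⟨l', rfl⟩ := Nat.exists_eq_add_of_le hl
  have h5 : k' * l' * 2 + 2 * (2 * (1 + k') + 3) + 5 * (2 + l') =
      (2 * (1 + k') + 3) * (2 + l') + 10 := by ring
  omega

/-- The correlation is at most a third, with equality only for `3` and `1 / 3`. -/
theorem key (h11 : 11 ≤ p) {v : ZMod p} (hv0 : v ≠ 0) (hv1 : v ≠ 1) :
    3 * (Dz v - 1) ≤ p - 1 ∧ (3 * (Dz v - 1) = p - 1 → v = 3 ∨ 3 * v = 1) := by
  have hpp := hpf.out
  have hodd : Odd p := hpp.odd_of_ne_two (by omega)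
  have hp0 : 0 < p := hpp.pos
  set n := v.val with hn
  have hnlt : n < p := ZMod.val_lt v
  have hvn : v = (n : ZMod p) := (ZMod.natCast_zmod_val v).symm
  have hn0 : n ≠ 0 := fun h => hv0 (by rw [hvn, h, Nat.cast_zero])
  have hn1 : n ≠ 1 := fun h => hv1 (by rw [hvn, h, Nat.cast_one])
  have hnegval : (-v).val = p - n := by rw [ZMod.neg_val, if_neg hv0]
  have hneg := Dz_neg hodd hv0
  rcases Nat.even_or_odd n with hev | hod
  · -- `n` even
    rcases lt_or_ge (3 * n) (p - 1) with h3 | h3
    · have hb := even_sum (p := p) (e := n) (by omega) hp0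
      rw [← Dz_even hodd (v := v) (by rwa [← hn])] at hb
      constructor
      · omega
      · intro h; exfalso; omega
    · have hodw : Odd (p - n) := Nat.Odd.sub_even hnlt.le hodd hev
      obtain ⟨m, hm⟩ := hodw
      rcases Nat.eq_zero_or_pos m with hm0 | hm0
      · have h1 : (-v) = 1 := by
          have h2 : (-v).val = 1 := by rw [hnegval]; omega
          have h3 := ZMod.natCast_zmod_val (-v)
          rw [h2, Nat.cast_one] at h3
          exact h3.symm
        rw [h1, Dz_one] at hneg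
        constructor
        · omega
        · intro h; exfalso; omega
      · obtain ⟨k, rfl⟩ := Nat.exists_eq_succ_of_ne_zero hm0.ne'
        have hw : p - n = 2 * k + 3 := by omega
        have hndvd : ¬ (2 * k + 3) ∣ p := by
          intro hd
          rcases (Nat.dvd_prime hpp).1 hd with h4 | h4 <;> omega
        have hb := odd_sum (p := p) (m := k) hndvd hp0
        have hDz := Dz_odd hodd (v := -v) (by rw [hnegval, hw]; exact ⟨k + 1, by ring⟩)
        rw [hnegval, hw] at hDz
        rw [← hDz] at hb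
        have hl : 1 ≤ p / (2 * k + 3) := by
          rw [Nat.le_div_iff_mul_le (by omega)]
          omega
        constructor
        · omega
        · intro h; exfalso; omega
  · -- `n` odd
    rcases le_or_gt (3 * n) (2 * p + 1) with h3 | h3
    · obtain ⟨m, hm⟩ := hod
      rcases Nat.eq_zero_or_pos m with hm0 | hm0
      · omega
      obtain ⟨k, rfl⟩ := Nat.exists_eq_succ_of_ne_zero hm0.ne'
      have hw : n = 2 * k + 3 := by omega
      have hndvd : ¬ (2 * k + 3) ∣ p := by
        intro hd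
        rcases (Nat.dvd_prime hpp).1 hd with h4 | h4 <;> omega
      have hb := odd_sum (p := p) (m := k) hndvd hp0
      have hDz := Dz_odd hodd (v := v) (by rw [← hn, hw]; exact ⟨k + 1, by ring⟩)
      rw [← hn, hw] at hDz
      rw [← hDz] at hb
      set l := p / (2 * k + 3) with hl
      have hlm : (2 * k + 3) * l ≤ p := Nat.mul_div_le p _
      have hlne : (2 * k + 3) * l ≠ p := by
        intro h
        exact hndvd (Dvd.intro l h)
      have hl1 : 1 ≤ l := by
        rw [hl, Nat.le_div_iff_mul_le (by omega)]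
        omega
      rcases Nat.eq_zero_or_pos k with hk | hk
      · subst hk
        constructor
        · omega
        · intro _
          left
          rw [hvn, hw]
          norm_num
      · rcases Nat.lt_or_ge l 2 with hl2 | hl2
        · have hl' : l = 1 := by omega
          constructor
          · omega
          · intro h
            right
            have h5 : 3 * n = 2 * p + 1 := by omega
            rw [hvn]
            have h6 : ((3 * n : ℕ) : ZMod p) = ((2 * p + 1 : ℕ) : ZMod p) := by rw [h5]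
            push_cast at h6
            rw [ZMod.natCast_self] at h6
            simpa using h6
        · have h4 : 2 * (2 * k + 3) + 5 * l ≤ p + 9 :=
            aux_mul hk hl2 (lt_of_le_of_ne hlm hlne)
          constructor
          · omega
          · intro h; exfalso; omega
    · have hevn : Even (p - n) := Nat.Odd.sub_odd hodd hod
      have hb := even_sum (p := p) (e := p - n) (by omega) hp0
      have hDz := Dz_even hodd (v := -v) (by rw [hnegval]; exact hevn)
      rw [hnegval] at hDz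
      rw [← hDz] at hb
      constructor
      · omega
      · intro h; exfalso; omega

/-- `∑ ε (t a) ε (t b)` over the nonzero residues -/
theorem corr {a b : ZMod p} (ha : a ≠ 0) :
    ∑ t ∈ univ.erase (0 : ZMod p), ep (t * a) * ep (t * b) = Dz (b / a) - 1 := by
  rw [Dz_erase]
  refine Finset.sum_nbij' (fun t => t * a) (fun t => t / a) ?_ ?_ ?_ ?_ ?_
  · intro t ht
    exact mem_erase.2 ⟨mul_ne_zero (ne_of_mem_erase ht) ha, mem_univ _⟩
  · intro t ht
    exact mem_erase.2 ⟨div_ne_zero (ne_of_mem_erase ht) ha, mem_univ _⟩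
  · intro t _
    exact mul_div_cancel_right₀ t ha
  · intro t _
    exact div_mul_cancel₀ t ha
  · intro t _
    have : b / a * (t * a) = t * b := by field_simp
    rw [this]

/-- Three residues, pairwise different up to sign, can be made even. -/
theorem three_even (h11 : 11 ≤ p) {a b c : ZMod p} (ha : a ≠ 0) (hb : b ≠ 0) (hc : c ≠ 0)
    (hab : a ≠ -b) (hbc : b ≠ -c) (hca : c ≠ -a) :
    ∃ t : ZMod p, t ≠ 0 ∧ ep (t * a) = 1 ∧ ep (t * b) = 1 ∧ ep (t * c) = 1 := by
  have hpp := hpf.out
  have hodd : Odd p := hpp.odd_of_ne_two (by omega)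
  by_contra hno
  push Not at hno
  have hno' : ∀ t : ZMod p, t ≠ 0 → ep (t * a) = -1 → ep (t * b) = -1 → ep (t * c) ≠ -1 := by
    intro t ht h1 h2 h3
    have e : ∀ x : ZMod p, x ≠ 0 → ep (-t * x) = - ep (t * x) := by
      intro x hx
      rw [neg_mul, ep_neg hodd (mul_ne_zero ht hx)]
    have := hno (-t) (neg_ne_zero.2 ht) (by rw [e a ha, h1]; norm_num)
      (by rw [e b hb, h2]; norm_num)
    exact this (by rw [e c hc, h3]; norm_num)
  have hsum : ∀ t ∈ univ.erase (0 : ZMod p), ep (t * a) * ep (t * b) + ep (t * b) * ep (t * c) +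
      ep (t * c) * ep (t * a) = -1 := by
    intro t ht
    have ht0 : t ≠ 0 := ne_of_mem_erase ht
    have h1 := hno t ht0
    have h2 := hno' t ht0
    rcases ep_eq (t * a) with e1 | e1 <;> rcases ep_eq (t * b) with e2 | e2 <;>
      rcases ep_eq (t * c) with e3 | e3 <;> rw [e1, e2, e3] <;> simp_all
  have htot := Finset.sum_congr rfl hsum
  rw [Finset.sum_add_distrib, Finset.sum_add_distrib, corr ha, corr hb, corr hc] at htot
  have hcard : ∑ _t ∈ univ.erase (0 : ZMod p), (-1 : ℤ) = -(p - 1) := by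
    rw [Finset.sum_const, card_erase_of_mem (mem_univ _), card_univ, ZMod.card, nsmul_eq_mul,
      Nat.cast_sub hpp.one_lt.le]
    push_cast
    ring
  rw [hcard] at htot
  -- each correlation is at least minus a third
  have hkey : ∀ x y : ZMod p, x ≠ 0 → y ≠ 0 → x ≠ -y →
      -((p : ℤ) - 1) ≤ 3 * (Dz (y / x) - 1) ∧
        (3 * (Dz (y / x) - 1) = -((p : ℤ) - 1) → y / x = -3 ∨ 3 * (y / x) = -1) := by
    intro x y hx hy hxy
    have hr0 : y / x ≠ 0 := div_ne_zero hy hx
    have hv1 : -(y / x) ≠ 1 := by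
      intro h
      apply hxy
      have h1 : y / x = -1 := by rw [← h, neg_neg]
      rw [div_eq_iff hx] at h1
      rw [h1]; ring
    have hk := key h11 (neg_ne_zero.2 hr0) hv1
    have hneg := Dz_neg hodd hr0
    rw [hneg] at hk
    refine ⟨by linarith [hk.1], fun h => ?_⟩
    rcases hk.2 (by linarith) with h1 | h1
    · left; rw [← h1, neg_neg]
    · right; linear_combination -h1
  have k1 := hkey a b ha hb hab
  have k2 := hkey b c hb hc hbc
  have k3 := hkey c a hc ha hca
  have r1 := k1.2 (by linarith [k1.1, k2.1, k3.1])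
  have r2 := k2.2 (by linarith [k1.1, k2.1, k3.1])
  have r3 := k3.2 (by linarith [k1.1, k2.1, k3.1])
  have hprod : (b / a) * (c / b) * (a / c) = 1 := by
    field_simp
  have hsmall : ∀ m : ℕ, 0 < m → m < 11 → ((m : ℕ) : ZMod p) ≠ 0 := by
    intro m h1 h2 h3
    rw [ZMod.natCast_eq_zero_iff] at h3
    exact absurd (Nat.le_of_dvd h1 h3) (by omega)
  have h4 : (4 : ZMod p) ≠ 0 := by
    have := hsmall 4 (by norm_num) (by norm_num)
    exact_mod_cast this
  have h28 : (28 : ZMod p) ≠ 0 := by
    have h7 := hsmall 7 (by norm_num) (by norm_num)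
    have : (28 : ZMod p) = ((4 : ℕ) : ZMod p) * ((7 : ℕ) : ZMod p) := by norm_num
    rw [this]
    exact mul_ne_zero (hsmall 4 (by norm_num) (by norm_num)) h7
  set x := b / a with hx
  set y := c / b with hy
  set z := a / c with hz
  have h12 : (12 : ZMod p) ≠ 0 := by
    have : (12 : ZMod p) = ((4 : ℕ) : ZMod p) * ((3 : ℕ) : ZMod p) := by norm_num
    rw [this]
    exact mul_ne_zero (hsmall 4 (by norm_num) (by norm_num)) (hsmall 3 (by norm_num) (by norm_num))
  clear_value x y z
  rcases r1 with r1 | r1 <;> rcases r2 with r2 | r2 <;> rcases r3 with r3 | r3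
  · apply h28
    linear_combination y * z * r1 - 3 * z * r2 + 9 * r3 - hprod
  · apply h4
    linear_combination y * z * r1 - 3 * z * r2 + 3 * r3 - hprod
  · apply h4
    linear_combination y * z * r1 - 3 * y * r3 + 3 * r2 - hprod
  · apply h12
    linear_combination 9 * y * z * r1 - 9 * z * r2 + 3 * r3 - 9 * hprod
  · apply h4
    linear_combination x * z * r2 - 3 * x * r3 + 3 * r1 - hprod
  · apply h12
    linear_combination 9 * x * z * r2 - 9 * z * r1 + 3 * r3 - 9 * hprod
  · apply h12
    linear_combination 9 * x * y * r3 - 9 * y * r1 + 3 * r2 - 9 * hprod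
  · apply h28
    linear_combination 9 * y * z * r1 - 3 * z * r2 + r3 - 27 * hprod

end Pool.Agent.K6.H54.Jac
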