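import Mathlib
import Pool.Agent.K6.H54.Jac.Zmod

/-!
# Half-free sets of residues and the half-interval
-/

set_option autoImplicit false

namespace Pool.Agent.K6.H54.Jac

open Finset

/-- the residue is in the open interval `(0, p / 2)` -/
def InH {p : ℕ} (x : ZMod p) : Prop := 0 < x.val ∧ 2 * x.val < p

instance {p : ℕ} (x : ZMod p) : Decidable (InH x) := inferInstanceAs (Decidable (_ ∧ _))

/-- the set of nonzero residues does not contain two opposite elements -/
def HF {p : ℕ} (X : Set (ZMod p)) : Prop := (0 : ZMod p) ∉ X ∧ ∀ x ∈ X, -x ∉ X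

/-- some nonzero multiple of the set is contained in the half-interval -/
def Occ {p : ℕ} (X : Set (ZMod p)) : Prop := ∃ t : ZMod p, t ≠ 0 ∧ ∀ x ∈ X, InH (t * x)

variable {p : ℕ} [hpf : Fact p.Prime]

theorem inH_ne {x : ZMod p} (h : InH x) : x ≠ 0 := by
  rintro rfl
  have := h.1
  rw [ZMod.val_zero] at this
  omega

theorem inH_neg (h2 : p ≠ 2) {x : ZMod p} (hx : x ≠ 0) : InH (-x) ↔ ¬ InH x := by
  have hodd : Odd p := hpf.out.odd_of_ne_two h2
  have h1 : (-x).val = p - x.val := by rw [ZMod.neg_val, if_neg hx]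
  have h3 := ZMod.val_lt x
  have h4 : x.val ≠ 0 := fun h => hx ((ZMod.val_eq_zero x).1 h)
  unfold InH
  rw [h1]
  obtain ⟨m, hm⟩ := hodd
  omega

theorem inH_one (h2 : p ≠ 2) : InH (1 : ZMod p) := by
  have h3 : 2 < p := lt_of_le_of_ne hpf.out.two_le (Ne.symm h2)
  have : (1 : ZMod p).val = 1 := ZMod.val_one p
  unfold InH
  rw [this]
  omega

theorem inH_iff (h2 : p ≠ 2) {x : ZMod p} (hx : x ≠ 0) : ep (2 * x) = 1 ↔ InH x := by
  have h20 : 2 < p := lt_of_le_of_ne hpf.out.two_le (Ne.symm h2)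
  have hodd : Odd p := hpf.out.odd_of_ne_two h2
  have h3 := ZMod.val_lt x
  have h4 : x.val ≠ 0 := fun h => hx ((ZMod.val_eq_zero x).1 h)
  have h5 : (2 : ZMod p).val = 2 := by
    have := ZMod.val_natCast_of_lt h20
    exact_mod_cast this
  unfold ep InH
  rw [ZMod.val_mul, h5]
  obtain ⟨m, hm⟩ := hodd
  rcases lt_or_ge (2 * x.val) p with h | h
  · rw [Nat.mod_eq_of_lt h, pow_mul]
    norm_num
    exact ⟨hx, h⟩
  · have h6 : (2 * x.val) % p = 2 * x.val - p := by
      rw [Nat.mod_eq_sub_mod h, Nat.mod_eq_of_lt (by omega)]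
    rw [h6]
    have h7 : Odd (2 * x.val - p) := ⟨x.val - m - 1, by omega⟩
    rw [h7.neg_one_pow]
    norm_num
    omega

/-- different residues are separated by the multiples of the half-interval -/
theorem sep (h2 : p ≠ 2) {v : ZMod p} (hv0 : v ≠ 0) (hv1 : v ≠ 1) :
    ∃ t : ZMod p, InH t ∧ ¬ InH (v * t) := by
  have hodd : Odd p := hpf.out.odd_of_ne_two h2
  obtain ⟨m, hm⟩ := hodd
  have hlt := ZMod.val_lt v
  have hvn : v = ((v.val : ℕ) : ZMod p) := (ZMod.natCast_zmod_val v).symm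
  set n := v.val with hn
  have hn0 : n ≠ 0 := fun h => hv0 (by rw [hvn, h, Nat.cast_zero])
  have hn1 : n ≠ 1 := fun h => hv1 (by rw [hvn, h, Nat.cast_one])
  rcases lt_or_ge (2 * n) p with h | h
  · set k := p / (2 * n) + 1 with hk
    have h3 : 2 * n * (p / (2 * n)) ≤ p := Nat.mul_div_le p _
    have h4 : p < 2 * n * k := Nat.lt_mul_div_succ p (by omega)
    have h4' : 2 * n * k = 2 * (k * n) := by ring
    have h5 : 2 * (k * n) ≤ p + 2 * n := by
      have : 2 * (k * n) = 2 * n * (p / (2 * n)) + 2 * n := by rw [hk]; ring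
      omega
    have h6 : 4 * (k - 1) ≤ p := by
      have h7 : 4 * (p / (2 * n)) ≤ 2 * n * (p / (2 * n)) := Nat.mul_le_mul_right _ (by omega)
      have h8 : k - 1 = p / (2 * n) := by omega
      rw [h8]
      omega
    have hkp : 2 * k < p := by omega
    refine ⟨((k : ℕ) : ZMod p), ?_, ?_⟩
    · unfold InH
      rw [ZMod.val_cast_of_lt (show k < p by omega)]
      exact ⟨Nat.succ_pos _, hkp⟩
    · unfold InH
      have h9 : v * ((k : ℕ) : ZMod p) = ((k * n : ℕ) : ZMod p) := by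
        conv_lhs => rw [hvn]
        push_cast
        ring
      rw [h9, ZMod.val_cast_of_lt (by omega)]
      omega
  · refine ⟨1, inH_one h2, ?_⟩
    rw [mul_one]
    unfold InH
    omega

theorem two (h2 : p ≠ 2) {a b : ZMod p} (ha : a ≠ 0) (hb : b ≠ 0) (hab : a ≠ -b) :
    ∃ t : ZMod p, t ≠ 0 ∧ InH (t * a) ∧ InH (t * b) := by
  have hv0 : -(b / a) ≠ 0 := neg_ne_zero.2 (div_ne_zero hb ha)
  have hv1 : -(b / a) ≠ 1 := by
    intro h
    apply hab
    have h1 : b / a = -1 := by rw [← h, neg_neg]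
    rw [div_eq_iff ha] at h1
    rw [h1]; ring
  obtain ⟨t, ht, ht'⟩ := sep h2 hv0 hv1
  have ht0 := inH_ne ht
  refine ⟨t / a, div_ne_zero ht0 ha, ?_, ?_⟩
  · rwa [div_mul_cancel₀ t ha]
  · have h1 : t / a * b ≠ 0 := mul_ne_zero (div_ne_zero ht0 ha) hb
    have h3 : -(b / a) * t = -(t / a * b) := by ring
    rw [h3, inH_neg h2 h1, not_not] at ht'
    exact ht'

theorem three (h11 : 11 ≤ p) {a b c : ZMod p} (ha : a ≠ 0) (hb : b ≠ 0) (hc : c ≠ 0)
    (hab : a ≠ -b) (hbc : b ≠ -c) (hca : c ≠ -a) :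
    ∃ t : ZMod p, t ≠ 0 ∧ InH (t * a) ∧ InH (t * b) ∧ InH (t * c) := by
  have h2 : p ≠ 2 := by omega
  have h20 : (2 : ZMod p) ≠ 0 := by
    have h3 : ((2 : ℕ) : ZMod p) ≠ 0 := by
      rw [Ne, ZMod.natCast_eq_zero_iff]
      intro h
      exact absurd (Nat.le_of_dvd (by norm_num) h) (by omega)
    exact_mod_cast h3
  obtain ⟨t, ht, h3, h4, h5⟩ := three_even h11 ha hb hc hab hbc hca
  have ht2 : t / 2 ≠ 0 := div_ne_zero ht h20
  have e : ∀ x : ZMod p, 2 * (t / 2 * x) = t * x := by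
    intro x
    field_simp
  refine ⟨t / 2, ht2, ?_, ?_, ?_⟩
  · rw [← inH_iff h2 (mul_ne_zero ht2 ha), e]; exact h3
  · rw [← inH_iff h2 (mul_ne_zero ht2 hb), e]; exact h4
  · rw [← inH_iff h2 (mul_ne_zero ht2 hc), e]; exact h5

theorem occ_two (h2 : p ≠ 2) {X : Set (ZMod p)} (hX : HF X) (hc : X.encard ≤ 2) : Occ X := by
  have hfin : X.Finite := Set.toFinite X
  have hn : (X.ncard : ℕ∞) = X.encard := hfin.cast_ncard_eq
  rw [← hn] at hc
  have hc' : X.ncard ≤ 2 := by exact_mod_cast hc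
  rcases Nat.lt_or_ge X.ncard 1 with h | h
  · have h0 : X = ∅ := (Set.ncard_eq_zero hfin).1 (by omega)
    refine ⟨1, one_ne_zero, fun x hx => ?_⟩
    rw [h0] at hx
    exact absurd hx (Set.notMem_empty x)
  rcases Nat.lt_or_ge X.ncard 2 with h' | h'
  · obtain ⟨a, rfl⟩ := Set.ncard_eq_one.1 (show X.ncard = 1 by omega)
    have ha : a ≠ 0 := fun h0 => hX.1 (by rw [h0]; rfl)
    refine ⟨a⁻¹, inv_ne_zero ha, fun x hx => ?_⟩
    rw [Set.mem_singleton_iff] at hx
    rw [hx, inv_mul_cancel₀ ha]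
    exact inH_one h2
  · obtain ⟨a, b, hab, rfl⟩ := Set.ncard_eq_two.1 (show X.ncard = 2 by omega)
    have ha : a ≠ 0 := fun h0 => hX.1 (by rw [h0]; simp)
    have hb : b ≠ 0 := fun h0 => hX.1 (by rw [h0]; simp)
    have hab' : a ≠ -b := by
      intro h0
      exact hX.2 b (by simp) (by rw [← h0]; simp)
    obtain ⟨t, ht, h3, h4⟩ := two h2 ha hb hab'
    refine ⟨t, ht, fun x hx => ?_⟩
    rcases hx with rfl | hx
    · exact h3
    · rw [Set.mem_singleton_iff] at hx
      rw [hx]; exact h4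

theorem occ_three (h11 : 11 ≤ p) {X : Set (ZMod p)} (hX : HF X) (hc : X.encard ≤ 3) : Occ X := by
  have hfin : X.Finite := Set.toFinite X
  have hn : (X.ncard : ℕ∞) = X.encard := hfin.cast_ncard_eq
  have hc' : X.ncard ≤ 3 := by
    rw [← hn] at hc
    exact_mod_cast hc
  rcases Nat.lt_or_ge X.ncard 3 with h | h
  · apply occ_two (by omega) hX
    rw [← hn]
    have : X.ncard ≤ 2 := by omega
    exact_mod_cast this
  · obtain ⟨a, b, c, hab, hac, hbc, rfl⟩ := Set.ncard_eq_three.1 (show X.ncard = 3 by omega)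
    have ha : a ≠ 0 := fun h0 => hX.1 (by rw [h0]; simp)
    have hb : b ≠ 0 := fun h0 => hX.1 (by rw [h0]; simp)
    have hc0 : c ≠ 0 := fun h0 => hX.1 (by rw [h0]; simp)
    have hab' : a ≠ -b := fun h0 => hX.2 b (by simp) (by rw [← h0]; simp)
    have hbc' : b ≠ -c := fun h0 => hX.2 c (by simp) (by rw [← h0]; simp)
    have hca' : c ≠ -a := fun h0 => hX.2 a (by simp) (by rw [← h0]; simp)
    obtain ⟨t, ht, h3, h4, h5⟩ := three h11 ha hb hc0 hab' hbc' hca'
    refine ⟨t, ht, fun x hx => ?_⟩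
    rcases hx with rfl | rfl | hx
    · exact h3
    · exact h4
    · rw [Set.mem_singleton_iff] at hx
      rw [hx]; exact h5

theorem small_three : ∀ X : Finset (ZMod 3), (0 : ZMod 3) ∉ X → (∀ x ∈ X, -x ∉ X) →
    ∃ t : ZMod 3, t ≠ 0 ∧ ∀ x ∈ X, InH (t * x) := by decide

theorem small_five : ∀ X : Finset (ZMod 5), (0 : ZMod 5) ∉ X → (∀ x ∈ X, -x ∉ X) →
    ∃ t : ZMod 5, t ≠ 0 ∧ ∀ x ∈ X, InH (t * x) := by decide

omit hpf in
theorem occ_small (hp : p = 3 ∨ p = 5) {X : Set (ZMod p)} (hX : HF X) : Occ X := by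
  classical
  rcases hp with rfl | rfl
  · have h1 := small_three X.toFinset (by simpa using hX.1)
      (fun x hx => by simpa using hX.2 x (by simpa using hx))
    obtain ⟨t, ht, h⟩ := h1
    exact ⟨t, ht, fun x hx => h x (by simpa using hx)⟩
  · have h1 := small_five X.toFinset (by simpa using hX.1)
      (fun x hx => by simpa using hX.2 x (by simpa using hx))
    obtain ⟨t, ht, h⟩ := h1
    exact ⟨t, ht, fun x hx => h x (by simpa using hx)⟩

/-- The degrees `s` in which everything occurs. -/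
def GoodAt (p s : ℕ) : Prop := s ≤ 2 ∨ (s ≤ 3 ∧ p ≠ 7) ∨ p ≤ 5

theorem occ_of_good (h2 : p ≠ 2) {s : ℕ} (hs : GoodAt p s) {X : Set (ZMod p)} (hX : HF X)
    (hc : X.encard ≤ s) : Occ X := by
  have hpp := hpf.out
  have h2' := hpp.two_le
  have hsmall : p < 11 → p = 3 ∨ p = 5 ∨ p = 7 := by
    intro h
    interval_cases p <;> revert hpp h2 <;> decide
  rcases hs with hs | ⟨hs, h7⟩ | h5
  · exact occ_two h2 hX (hc.trans (by exact_mod_cast hs))
  · rcases lt_or_ge p 11 with h | h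
    · rcases hsmall h with h' | h' | h'
      · exact occ_small (Or.inl h') hX
      · exact occ_small (Or.inr h') hX
      · exact absurd h' h7
    · exact occ_three h hX (hc.trans (by exact_mod_cast hs))
  · rcases hsmall (by omega) with h' | h' | h'
    · exact occ_small (Or.inl h') hX
    · exact occ_small (Or.inr h') hX
    · omega

theorem bad_seven : ∀ t : ZMod 7, t ≠ 0 → ¬ (InH (t * 1) ∧ InH (t * 2) ∧ InH (t * 4)) := by decide

/-- the half-free set which never occurs -/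
theorem bad_four (h11 : 11 ≤ p) : ∀ t : ZMod p, ¬ (InH (t * 1) ∧ InH (t * (-2)) ∧
    InH (t * (-3)) ∧ InH (t * 6)) := by
  rintro t ⟨h1, h2, h3, h6⟩
  have hpp := hpf.out
  have hp2 : p ≠ 2 := by omega
  obtain ⟨m, hm⟩ := hpp.odd_of_ne_two hp2
  rw [mul_one] at h1
  have ht := inH_ne h1
  have htn : t = ((t.val : ℕ) : ZMod p) := (ZMod.natCast_zmod_val t).symm
  have hlt := ZMod.val_lt t
  set n := t.val with hn
  have h1' : 0 < n ∧ 2 * n < p := h1
  have e2 : t * (-2) = -((2 * n : ℕ) : ZMod p) := by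
    conv_lhs => rw [htn]
    push_cast; ring
  have e3 : t * (-3) = -((3 * n : ℕ) : ZMod p) := by
    conv_lhs => rw [htn]
    push_cast; ring
  have e6 : t * 6 = ((6 * n : ℕ) : ZMod p) := by
    conv_lhs => rw [htn]
    push_cast; ring
  rw [e2] at h2
  rw [e3] at h3
  rw [e6] at h6
  have n2 : ((2 * n : ℕ) : ZMod p) ≠ 0 := neg_ne_zero.1 (inH_ne h2)
  have n3 : ((3 * n : ℕ) : ZMod p) ≠ 0 := neg_ne_zero.1 (inH_ne h3)
  rw [inH_neg hp2 n2] at h2
  rw [inH_neg hp2 n3] at h3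
  unfold InH at h2 h3 h6
  rw [ZMod.val_natCast] at h2 h3 h6
  rw [Nat.mod_eq_of_lt (by omega)] at h2
  have h4 : p < 4 * n := by omega
  rcases lt_or_ge (3 * n) p with h5 | h5
  · have h7 : (6 * n) % p = 6 * n - p := by
      rw [Nat.mod_eq_sub_mod (by omega), Nat.mod_eq_of_lt (by omega)]
    rw [h7] at h6
    omega
  · have h7 : (3 * n) % p = 3 * n - p := by
      rw [Nat.mod_eq_sub_mod h5, Nat.mod_eq_of_lt (by omega)]
    rw [h7] at h3
    have h8 : 3 * n ≠ p := by
      intro h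
      have := Nat.dvd_of_mod_eq_zero (show p % 3 = 0 by omega)
      rcases (Nat.dvd_prime hpp).1 this with h9 | h9 <;> omega
    omega

end Pool.Agent.K6.H54.Jac
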