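import Mathlib
import Pool.Agent.W546.GHC.Defs
import Pool.Agent.X311.CmDefs
import Pool.Agent.Helper475.ExistsRingequivPow
import Pool.Agent.K6.H54.Jac.Occ

/-!
# The embeddings of the prime cyclotomic fields and the CM types of the curves `y ^ 2 = x ^ p - 1`
-/

set_option autoImplicit false

namespace Pool.Agent.K6.H54.Jac

open NumberField Pool.Agent.H204R3.CM Pool.Agent.W546.GHC Pool.Agent.X311.CmY

noncomputable section

/-- `exp (2 π i / n)` -/
def om (n : ℕ) : ℂ := Complex.exp (2 * Real.pi * Complex.I / n)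

theorem om_prim {n : ℕ} (hn : n ≠ 0) : IsPrimitiveRoot (om n) n := Complex.isPrimitiveRoot_exp n hn

section one

variable {p : ℕ} [hpf : Fact p.Prime]

theorem om_pow_mod (m : ℕ) : om p ^ (m % p) = om p ^ m :=
  (pow_eq_pow_mod m (om_prim hpf.out.ne_zero).pow_eq_one).symm

theorem om_pow_mul (a b : ZMod p) : om p ^ (a * b).val = (om p ^ a.val) ^ b.val := by
  rw [ZMod.val_mul, om_pow_mod, pow_mul]

theorem om_inj {a b : ZMod p} (h : om p ^ a.val = om p ^ b.val) : a = b :=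
  ZMod.val_injective p ((om_prim hpf.out.ne_zero).pow_inj (ZMod.val_lt a) (ZMod.val_lt b) h)

theorem om_neg (a : ZMod p) : om p ^ (-a).val = starRingEnd ℂ (om p ^ a.val) := by
  have h1 : om p ^ (-a).val * om p ^ a.val = 1 := by
    rw [← pow_add, ← om_pow_mod, ← ZMod.val_add, neg_add_cancel, ZMod.val_zero, pow_zero]
  have h2 : starRingEnd ℂ (om p ^ a.val) * om p ^ a.val = 1 := by
    rw [mul_comm, Complex.mul_conj, Complex.normSq_eq_norm_sq]
    have : ‖om p ^ a.val‖ = 1 := by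
      rw [norm_pow, (om_prim hpf.out.ne_zero).norm'_eq_one hpf.out.ne_zero, one_pow]
    rw [this]
    norm_num
  have h3 : om p ^ a.val ≠ 0 := fun h => by
    rw [h, mul_zero] at h1
    exact zero_ne_one h1
  exact mul_right_cancel₀ h3 (h1.trans h2.symm)

/-- the imaginary part is positive exactly for the residues in the half-interval -/
theorem im_pos_iff (h2 : p ≠ 2) {a : ZMod p} (ha : a ≠ 0) : 0 < (om p ^ a.val).im ↔ InH a := by
  have hp0 : (0 : ℝ) < p := by exact_mod_cast hpf.out.pos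
  obtain ⟨m, hm⟩ := hpf.out.odd_of_ne_two h2
  have hlt := ZMod.val_lt a
  have ha0 : a.val ≠ 0 := fun h => ha ((ZMod.val_eq_zero a).1 h)
  have him : (om p ^ a.val).im = Real.sin (2 * Real.pi * a.val / p) := by
    unfold om
    rw [← Complex.exp_nat_mul]
    have : ((a.val : ℕ) : ℂ) * (2 * Real.pi * Complex.I / p) =
        ((2 * Real.pi * a.val / p : ℝ) : ℂ) * Complex.I := by
      push_cast
      ring
    rw [this, Complex.exp_ofReal_mul_I_im]
  rw [him]
  have hpi := Real.pi_pos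
  have hapos : (0 : ℝ) < a.val := by exact_mod_cast Nat.pos_of_ne_zero ha0
  constructor
  · intro h
    refine ⟨Nat.pos_of_ne_zero ha0, ?_⟩
    by_contra h3
    push Not at h3
    have h4 : (p : ℝ) ≤ 2 * a.val := by exact_mod_cast h3
    have h5 : (a.val : ℝ) ≤ p := by exact_mod_cast hlt.le
    have h6 : Real.sin (2 * Real.pi * a.val / p) ≤ 0 := by
      have h7 : Real.sin (2 * Real.pi * a.val / p) =
          Real.sin (2 * Real.pi * a.val / p - 2 * Real.pi) := by
        rw [Real.sin_sub_two_pi]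
      rw [h7]
      apply Real.sin_nonpos_of_nonpos_of_neg_pi_le
      · rw [sub_nonpos, div_le_iff₀ hp0]
        nlinarith
      · have : Real.pi ≤ 2 * Real.pi * a.val / p := by
          rw [le_div_iff₀ hp0]
          nlinarith
        linarith
    linarith
  · rintro ⟨_, h3⟩
    have h4 : (2 * a.val : ℝ) < p := by exact_mod_cast h3
    apply Real.sin_pos_of_pos_of_lt_pi
    · positivity
    · rw [div_lt_iff₀ hp0]
      nlinarith

variable {E : Type} [Field E] [NumberField E] [IsCyclotomicExtension {p} ℚ E] {ζ : E}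
  (hζ : IsPrimitiveRoot ζ p)

include hζ

omit [NumberField E] [IsCyclotomicExtension {p} ℚ E] in
theorem exists_kk (φ : E →+* ℂ) : ∃ k : ZMod p, k ≠ 0 ∧ φ ζ = om p ^ k.val := by
  have h1 : IsPrimitiveRoot (φ ζ) p := hζ.map_of_injective φ.injective
  have : NeZero p := ⟨hpf.out.ne_zero⟩
  obtain ⟨i, hi, h2⟩ := (om_prim hpf.out.ne_zero).eq_pow_of_pow_eq_one h1.pow_eq_one
  refine ⟨(i : ZMod p), ?_, ?_⟩
  · intro h
    rw [ZMod.natCast_eq_zero_iff] at h
    have h3 : i = 0 := Nat.eq_zero_of_dvd_of_lt h hi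
    rw [h3, pow_zero] at h2
    have := h1.ne_one hpf.out.one_lt
    exact this h2.symm
  · rw [ZMod.val_cast_of_lt hi, h2]

/-- the residue of an embedding -/
def kk (φ : E →+* ℂ) : ZMod p := Classical.choose (exists_kk hζ φ)

omit [NumberField E] [IsCyclotomicExtension {p} ℚ E] in
theorem kk_ne (φ : E →+* ℂ) : kk hζ φ ≠ 0 := (Classical.choose_spec (exists_kk hζ φ)).1

omit [NumberField E] [IsCyclotomicExtension {p} ℚ E] in
theorem kk_spec (φ : E →+* ℂ) : φ ζ = om p ^ (kk hζ φ).val :=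
  (Classical.choose_spec (exists_kk hζ φ)).2

omit [NumberField E] [IsCyclotomicExtension {p} ℚ E] in
theorem kk_eq {φ : E →+* ℂ} {a : ZMod p} (h : φ ζ = om p ^ a.val) : kk hζ φ = a :=
  om_inj ((kk_spec hζ φ).symm.trans h)

omit [NumberField E] [IsCyclotomicExtension {p} ℚ E] in
theorem kk_conj (φ : E →+* ℂ) : kk hζ (ComplexEmbedding.conjugate φ) = - kk hζ φ := by
  apply kk_eq
  rw [om_neg, ← kk_spec]
  rfl

theorem kk_inj {φ ψ : E →+* ℂ} (h : kk hζ φ = kk hζ ψ) : φ = ψ := by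
  have h1 : φ ζ = ψ ζ := by rw [kk_spec hζ φ, kk_spec hζ ψ, h]
  have : NeZero p := ⟨hpf.out.ne_zero⟩
  have h2 : φ.toRatAlgHom = ψ.toRatAlgHom := by
    refine (hζ.powerBasis ℚ).algHom_ext ?_
    rw [IsPrimitiveRoot.powerBasis_gen]
    exact h1
  have h3 := congrArg (fun f : E →ₐ[ℚ] ℂ => (f : E →+* ℂ)) h2
  simpa using h3

omit [NumberField E] [IsCyclotomicExtension {p} ℚ E] in
theorem mem_type (h2 : p ≠ 2) (φ : E →+* ℂ) : 0 < (φ ζ).im ↔ InH (kk hζ φ) := by
  rw [kk_spec hζ φ]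
  exact im_pos_iff h2 (kk_ne hζ φ)

omit [NumberField E] [IsCyclotomicExtension {p} ℚ E] in
theorem kk_comp {σ : ℂ ≃+* ℂ} {t : ZMod p} (hσ : σ (om p) = om p ^ t.val) (φ : E →+* ℂ) :
    kk hζ ((σ : ℂ →+* ℂ).comp φ) = t * kk hζ φ := by
  apply kk_eq
  rw [RingHom.comp_apply, kk_spec hζ φ, map_pow, om_pow_mul]
  congr 1

omit hζ in
omit [NumberField E] [IsCyclotomicExtension {p} ℚ E] [Field E] in
/-- every automorphism of the complex numbers multiplies by a residue -/
theorem exists_tau (σ : ℂ ≃+* ℂ) : ∃ t : ZMod p, t ≠ 0 ∧ σ (om p) = om p ^ t.val :=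
  exists_kk (om_prim hpf.out.ne_zero) (σ : ℂ →+* ℂ)

end one

section families

variable {ι : Type} [Fintype ι] {p : ι → ℕ} [hpf : ∀ i, Fact (p i).Prime]

/-- The automorphisms of `ℂ` over `K` act transitively on the roots of unity of order `N`, that is
`K` is linearly disjoint from the cyclotomic field. -/
def DisjointFrom (K : Subfield ℂ) (N : ℕ) : Prop :=
  ∀ z w : ℂ, IsPrimitiveRoot z N → IsPrimitiveRoot w N → ∃ σ : ℂ ≃+* ℂ, Fixes K σ ∧ σ z = w

omit [Fintype ι] hpf in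
theorem disjointFrom_bot {N : ℕ} (hN : 0 < N) : DisjointFrom ⊥ N := by
  intro z w hz hw
  have : NeZero N := ⟨hN.ne'⟩
  obtain ⟨c, hc, hcop, rfl⟩ := (hz.isPrimitiveRoot_iff).1 hw
  obtain ⟨σ, hσ⟩ := H475.exists_ringEquiv_pow N hN z hz c hcop
  refine ⟨σ, ?_, hσ⟩
  intro x hx
  exact (bot_le : (⊥ : Subfield ℂ) ≤ (σ : ℂ →+* ℂ).eqLocusField (RingHom.id ℂ)) hx

theorem exists_aut (hinj : Function.Injective p) {K : Subfield ℂ}
    (hK : DisjointFrom K (∏ i, p i)) (T : ∀ i, ZMod (p i)) (hT : ∀ i, T i ≠ 0) :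
    ∃ σ : ℂ ≃+* ℂ, Fixes K σ ∧ ∀ i, σ (om (p i)) = om (p i) ^ (T i).val := by
  classical
  set N := ∏ i, p i with hN
  have hN0 : N ≠ 0 := Finset.prod_ne_zero_iff.2 fun i _ => (hpf i).out.ne_zero
  obtain ⟨c, hc⟩ := Nat.chineseRemainderOfFinset (fun i => (T i).val) p Finset.univ
    (fun i _ => (hpf i).out.ne_zero)
    (fun i _ j _ hij => (Nat.coprime_primes (hpf i).out (hpf j).out).2 fun h => hij (hinj h))
  have hcop : Nat.Coprime c N := by
    rw [hN]
    refine Nat.Coprime.prod_right fun i _ => ?_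
    rw [Nat.coprime_comm, Nat.Prime.coprime_iff_not_dvd (hpf i).out]
    intro hd
    have h1 := hc i (Finset.mem_univ i)
    have h2 : p i ∣ (T i).val := (h1.dvd_iff dvd_rfl).1 hd
    have h3 := Nat.eq_zero_of_dvd_of_lt h2 (ZMod.val_lt _)
    exact hT i ((ZMod.val_eq_zero _).1 h3)
  have hprim := om_prim hN0
  obtain ⟨σ, hσ, hσ'⟩ := hK (om N) (om N ^ c) hprim (hprim.pow_of_coprime c hcop)
  refine ⟨σ, hσ, fun i => ?_⟩
  have hdvd : p i ∣ N := Finset.dvd_prod_of_mem p (Finset.mem_univ i)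
  obtain ⟨q, hq⟩ := hdvd
  have hq0 : (q : ℂ) ≠ 0 := by
    intro h
    apply hN0
    rw [hq]
    have : q = 0 := by exact_mod_cast h
    rw [this, mul_zero]
  have hpi0 : ((p i : ℕ) : ℂ) ≠ 0 := by exact_mod_cast (hpf i).out.ne_zero
  have h1 : om (p i) = om N ^ q := by
    unfold om
    rw [← Complex.exp_nat_mul, hq]
    congr 1
    push_cast
    field_simp
  have h2 : σ (om (p i)) = om (p i) ^ c := by
    rw [h1, map_pow, hσ', ← pow_mul, ← pow_mul, mul_comm]
  rw [h2, ← om_pow_mod (p := p i) c]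
  have h3 := hc i (Finset.mem_univ i)
  have h4 : c % p i = (T i).val := by
    have h5 : c % p i = (T i).val % p i := h3
    rw [h5, Nat.mod_eq_of_lt (ZMod.val_lt _)]
  rw [h4]

end families

end

end Pool.Agent.K6.H54.Jac
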