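import Mathlib
import Pool.Agent.K6.H54.Jac.Emb
import Pool.Agent.W546.GHC.Conv
import Pool.Agent.X311.Cn2

/-!
# Half-free sets of embeddings for the curves `y ^ 2 = x ^ p - 1`
-/

set_option autoImplicit false

namespace Pool.Agent.K6.H54.Jac

open NumberField Pool.Agent.H204R3.CM Pool.Agent.W546.GHC Pool.Agent.X311.CmY

noncomputable section

variable {ι : Type} [Fintype ι] {p : ι → ℕ} [hpf : ∀ i, Fact (p i).Prime]
  {E : ι → Type} [∀ i, Field (E i)] [∀ i, NumberField (E i)]
  [hcyc : ∀ i, IsCyclotomicExtension {p i} ℚ (E i)] {ζ : ∀ i, E i}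

/-- the CM type of the Jacobian of `y ^ 2 = x ^ p - 1` -/
def PhiH (ζ : ∀ i, E i) (i : ι) : Set (E i →+* ℂ) := {φ | 0 < (φ (ζ i)).im}

omit [Fintype ι] [∀ i, NumberField (E i)] hcyc in
theorem isCMType (h2 : ∀ i, p i ≠ 2) (hζ : ∀ i, IsPrimitiveRoot (ζ i) (p i)) (i : ι) :
    IsCMType (PhiH ζ i) := by
  intro φ
  change 0 < (φ (ζ i)).im ↔ ¬ 0 < ((ComplexEmbedding.conjugate φ) (ζ i)).im
  rw [mem_type (hζ i) (h2 i), mem_type (hζ i) (h2 i), kk_conj,
    inH_neg (h2 i) (kk_ne (hζ i) φ), not_not]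

theorem occursOver (h2 : ∀ i, p i ≠ 2) (hinj : Function.Injective p)
    (hζ : ∀ i, IsPrimitiveRoot (ζ i) (p i)) {K : Subfield ℂ}
    (hK : DisjointFrom K (∏ i, p i)) {s : ℕ} (hs : ∀ i, GoodAt (p i) s) :
    SmallSetsOccurOver K (PhiH ζ) s := by
  intro X hX hfree
  have key : ∀ i, Occ ((fun φ : E i →+* ℂ => kk (hζ i) φ) ''
      {φ | (⟨i, φ⟩ : Σ i, (E i →+* ℂ)) ∈ X}) := by
    intro i
    refine occ_of_good (h2 i) (hs i) ⟨?_, ?_⟩ ?_
    · rintro ⟨φ, _, h⟩
      exact kk_ne (hζ i) φ h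
    · rintro _ ⟨φ, hφ, rfl⟩ ⟨ψ, hψ, h⟩
      have h3 : ψ = ComplexEmbedding.conjugate φ := by
        apply kk_inj (hζ i)
        rw [kk_conj]
        exact h
      have h4 := hfree _ hφ
      apply h4
      change (⟨i, ComplexEmbedding.conjugate φ⟩ : Σ i, (E i →+* ℂ)) ∈ X
      rw [← h3]
      exact hψ
    · refine le_trans (Set.encard_image_le _ _) (le_trans ?_ hX)
      have hinj' : Function.Injective (fun φ : E i →+* ℂ => (⟨i, φ⟩ : Σ i, (E i →+* ℂ))) :=
        fun φ ψ h => by simpa using h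
      rw [← hinj'.encard_image]
      refine Set.encard_le_encard ?_
      rintro _ ⟨φ, hφ, rfl⟩
      exact hφ
  choose T hT hT' using key
  obtain ⟨σ, hσ, hσ'⟩ := exists_aut hinj hK T hT
  refine ⟨σ, hσ, ?_⟩
  rintro ⟨i, φ⟩ hx
  change 0 < (((σ : ℂ →+* ℂ).comp φ) (ζ i)).im
  rw [mem_type (hζ i) (h2 i), kk_comp (hζ i) (hσ' i)]
  exact hT' i _ ⟨φ, hx, rfl⟩

omit hcyc in
theorem exists_emb (hinj : Function.Injective p) (hζ : ∀ i, IsPrimitiveRoot (ζ i) (p i)) (i : ι)
    {a : ZMod (p i)} (ha : a ≠ 0) : ∃ φ : E i →+* ℂ, kk (hζ i) φ = a := by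
  classical
  obtain ⟨φ₀⟩ : Nonempty (E i →+* ℂ) := inferInstance
  have hN : 0 < ∏ i, p i := Finset.prod_pos fun i _ => (hpf i).out.pos
  obtain ⟨σ, -, hσ⟩ := exists_aut hinj (disjointFrom_bot hN)
    (Function.update (fun j => (1 : ZMod (p j))) i (a / kk (hζ i) φ₀)) (by
      intro j
      by_cases h : j = i
      · subst h
        rw [Function.update_self]
        exact div_ne_zero ha (kk_ne _ _)
      · rw [Function.update_of_ne h]
        exact one_ne_zero)
  refine ⟨(σ : ℂ →+* ℂ).comp φ₀, ?_⟩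
  have h1 := hσ i
  rw [Function.update_self] at h1
  rw [kk_comp (hζ i) h1, div_mul_cancel₀ _ (kk_ne _ _)]

theorem separated (h2 : ∀ i, p i ≠ 2) (hinj : Function.Injective p)
    (hζ : ∀ i, IsPrimitiveRoot (ζ i) (p i)) : Separated (PhiH ζ) := by
  classical
  rintro ⟨i, φ⟩ ⟨j, ψ⟩ h
  have hN : 0 < ∏ i, p i := Finset.prod_pos fun i _ => (hpf i).out.pos
  by_cases hij : i = j
  · subst hij
    by_contra hne
    have hab : kk (hζ i) φ ≠ kk (hζ i) ψ := by
      intro h3
      exact hne (by rw [kk_inj (hζ i) h3])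
    have ha := kk_ne (hζ i) φ
    have hb := kk_ne (hζ i) ψ
    obtain ⟨t, ht, ht'⟩ := sep (h2 i) (v := kk (hζ i) ψ / kk (hζ i) φ) (div_ne_zero hb ha)
      (by
        intro h3
        rw [div_eq_iff ha, one_mul] at h3
        exact hab h3.symm)
    obtain ⟨σ, -, hσ⟩ := exists_aut hinj (disjointFrom_bot hN)
      (Function.update (fun j => (1 : ZMod (p j))) i (t / kk (hζ i) φ)) (by
        intro j
        by_cases h : j = i
        · subst h
          rw [Function.update_self]
          exact div_ne_zero (inH_ne ht) ha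
        · rw [Function.update_of_ne h]
          exact one_ne_zero)
    have h1 := hσ i
    rw [Function.update_self] at h1
    have h4 := h σ
    change 0 < (((σ : ℂ →+* ℂ).comp φ) (ζ i)).im ↔ 0 < (((σ : ℂ →+* ℂ).comp ψ) (ζ i)).im at h4
    rw [mem_type (hζ i) (h2 i), mem_type (hζ i) (h2 i), kk_comp (hζ i) h1, kk_comp (hζ i) h1,
      div_mul_cancel₀ _ ha] at h4
    apply ht'
    have h5 : kk (hζ i) ψ / kk (hζ i) φ * t = t / kk (hζ i) φ * kk (hζ i) ψ := by ring
    rw [h5]
    exact h4.1 ht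
  · exfalso
    have ha := kk_ne (hζ i) φ
    have hb := kk_ne (hζ j) ψ
    obtain ⟨σ, -, hσ⟩ := exists_aut hinj (disjointFrom_bot hN)
      (Function.update (Function.update (fun j => (1 : ZMod (p j))) i (kk (hζ i) φ)⁻¹) j
        (-(kk (hζ j) ψ)⁻¹)) (by
        intro k
        by_cases h : k = j
        · subst h
          rw [Function.update_self]
          exact neg_ne_zero.2 (inv_ne_zero hb)
        · rw [Function.update_of_ne h]
          by_cases h' : k = i
          · subst h'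
            rw [Function.update_self]
            exact inv_ne_zero ha
          · rw [Function.update_of_ne h']
            exact one_ne_zero)
    have h1 := hσ i
    rw [Function.update_of_ne hij, Function.update_self] at h1
    have h3 := hσ j
    rw [Function.update_self] at h3
    have h4 := h σ
    change 0 < (((σ : ℂ →+* ℂ).comp φ) (ζ i)).im ↔ 0 < (((σ : ℂ →+* ℂ).comp ψ) (ζ j)).im at h4
    rw [mem_type (hζ i) (h2 i), mem_type (hζ j) (h2 j), kk_comp (hζ i) h1, kk_comp (hζ j) h3,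
      inv_mul_cancel₀ ha, neg_mul, inv_mul_cancel₀ hb, inH_neg (h2 j) one_ne_zero] at h4
    exact h4.1 (inH_one (h2 i)) (inH_one (h2 j))

omit hcyc in
/-- A half-free set of residues which never occurs gives such a set of embeddings. -/
theorem not_occurs_of (h2 : ∀ i, p i ≠ 2) (hinj : Function.Injective p)
    (hζ : ∀ i, IsPrimitiveRoot (ζ i) (p i)) (i : ι) (B : Finset (ZMod (p i)))
    (hB0 : (0 : ZMod (p i)) ∉ B) (hB : ∀ a ∈ B, ∀ b ∈ B, a + b ≠ 0)
    (hbad : ∀ t : ZMod (p i), t ≠ 0 → ∃ a ∈ B, ¬ InH (t * a)) {s : ℕ} (hs : B.card ≤ s) :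
    ¬ SmallSetsOccur (PhiH ζ) s := by
  classical
  intro hocc
  have hex : ∀ a : ZMod (p i), ∃ φ : E i →+* ℂ, a ≠ 0 → kk (hζ i) φ = a := by
    intro a
    by_cases ha : a = 0
    · obtain ⟨φ₀⟩ : Nonempty (E i →+* ℂ) := inferInstance
      exact ⟨φ₀, fun h => absurd ha h⟩
    · obtain ⟨φ, hφ⟩ := exists_emb hinj hζ i ha
      exact ⟨φ, fun _ => hφ⟩
  choose f hf using hex
  have hne : ∀ a ∈ B, a ≠ 0 := fun a ha h => hB0 (h ▸ ha)
  obtain ⟨σ, hσ⟩ := hocc ((fun a : ZMod (p i) => (⟨i, f a⟩ : Σ i, (E i →+* ℂ))) '' (B : Set _))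
    (by
      refine le_trans (Set.encard_image_le _ _) ?_
      rw [Set.encard_coe_eq_coe_finsetCard]
      exact_mod_cast hs)
    (by
      rintro _ ⟨a, ha, rfl⟩ ⟨b, hb, hab⟩
      have h1 : f b = ComplexEmbedding.conjugate (f a) := by
        simpa using hab
      have h3 := congrArg (kk (hζ i)) h1
      rw [kk_conj, hf a (hne a ha), hf b (hne b hb)] at h3
      exact hB b hb a ha (by rw [h3]; ring))
  obtain ⟨t, ht, hσt⟩ := exists_tau (p := p i) σ
  obtain ⟨a, ha, hna⟩ := hbad t ht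
  apply hna
  have h3 := hσ ⟨i, f a⟩ ⟨a, ha, rfl⟩
  change 0 < (((σ : ℂ →+* ℂ).comp (f a)) (ζ i)).im at h3
  rw [mem_type (hζ i) (h2 i), kk_comp (hζ i) hσt, hf a (hne a ha)] at h3
  exact h3

omit hcyc in
theorem not_occurs (h2 : ∀ i, p i ≠ 2) (hinj : Function.Injective p)
    (hζ : ∀ i, IsPrimitiveRoot (ζ i) (p i)) {s : ℕ} (i : ι) (hs : ¬ GoodAt (p i) s) :
    ¬ SmallSetsOccur (PhiH ζ) s := by
  classical
  unfold GoodAt at hs
  push Not at hs
  obtain ⟨h1, h3, h4⟩ := hs
  have hpp := (hpf i).out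
  by_cases h7 : p i = 7
  · have aux : ∀ q : ℕ, q = 7 → ∃ B : Finset (ZMod q), (0 : ZMod q) ∉ B ∧
        (∀ a ∈ B, ∀ b ∈ B, a + b ≠ 0) ∧ (∀ t : ZMod q, t ≠ 0 → ∃ a ∈ B, ¬ InH (t * a)) ∧
        B.card ≤ 3 := by
      rintro q rfl
      exact ⟨{1, 2, 4}, by decide, by decide, by decide, by decide⟩
    obtain ⟨B, hB0, hB, hbad, hcard⟩ := aux (p i) h7
    exact not_occurs_of h2 hinj hζ i B hB0 hB hbad (hcard.trans h1)
  · have h11 : 11 ≤ p i := by
      by_contra h
      push Not at h
      have h6 : ∀ q : ℕ, q.Prime → 5 < q → q ≠ 7 → q < 11 → False := by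
        intro q hq h8 h9 h10
        interval_cases q <;> revert hq h9 <;> decide
      exact h6 _ hpp h4 h7 h
    have hs4 : 4 ≤ s := by
      by_contra h
      push Not at h
      exact h7 (h3 (by omega))
    have hnz : ∀ m : ℕ, 0 < m → m < 11 → ((m : ℕ) : ZMod (p i)) ≠ 0 := by
      intro m h5 h6 h8
      rw [ZMod.natCast_eq_zero_iff] at h8
      exact absurd (Nat.le_of_dvd h5 h8) (by omega)
    have n1 := hnz 1 (by norm_num) (by norm_num)
    have n2 := hnz 2 (by norm_num) (by norm_num)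
    have n3 := hnz 3 (by norm_num) (by norm_num)
    have n4 := hnz 4 (by norm_num) (by norm_num)
    have n5 := hnz 5 (by norm_num) (by norm_num)
    have n6 := hnz 6 (by norm_num) (by norm_num)
    have n7 := hnz 7 (by norm_num) (by norm_num)
    have n12 : ((12 : ℕ) : ZMod (p i)) ≠ 0 := by
      have : ((12 : ℕ) : ZMod (p i)) = ((3 : ℕ) : ZMod (p i)) * ((4 : ℕ) : ZMod (p i)) := by
        norm_num
      rw [this]
      exact mul_ne_zero n3 n4
    push_cast at n1 n2 n3 n4 n5 n6 n7 n12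
    refine not_occurs_of h2 hinj hζ i {1, -2, -3, 6} ?_ ?_ ?_ (s := s) ?_
    · simp only [Finset.mem_insert, Finset.mem_singleton, not_or]
      refine ⟨?_, ?_, ?_, ?_⟩
      · exact fun h => n1 h.symm
      · intro h; exact n2 (by linear_combination h)
      · intro h; exact n3 (by linear_combination h)
      · exact fun h => n6 h.symm
    · intro a ha b hb hab
      simp only [Finset.mem_insert, Finset.mem_singleton] at ha hb
      rcases ha with rfl | rfl | rfl | rfl <;> rcases hb with rfl | rfl | rfl | rfl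
      · exact n2 (by linear_combination hab)
      · exact n1 (by linear_combination -hab)
      · exact n2 (by linear_combination -hab)
      · exact n7 (by linear_combination hab)
      · exact n1 (by linear_combination -hab)
      · exact n4 (by linear_combination -hab)
      · exact n5 (by linear_combination -hab)
      · exact n4 (by linear_combination hab)
      · exact n2 (by linear_combination -hab)
      · exact n5 (by linear_combination -hab)
      · exact n6 (by linear_combination -hab)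
      · exact n3 (by linear_combination hab)
      · exact n7 (by linear_combination hab)
      · exact n4 (by linear_combination hab)
      · exact n3 (by linear_combination hab)
      · exact n12 (by linear_combination hab)
    · intro t _
      by_contra hno
      push Not at hno
      exact bad_four h11 t ⟨hno 1 (by simp), hno (-2) (by simp), hno (-3) (by simp),
        hno 6 (by simp)⟩
    · exact Finset.card_le_four.trans hs4

omit [Fintype ι] [∀ i, NumberField (E i)] in
theorem occurs_of_over {s : ℕ} {K : Subfield ℂ} {Φ : ∀ i, Set (E i →+* ℂ)}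
    (h : SmallSetsOccurOver K Φ s) : SmallSetsOccur Φ s := by
  intro X h1 h3
  obtain ⟨σ, -, hσ⟩ := h X h1 h3
  exact ⟨σ, hσ⟩

end

end Pool.Agent.K6.H54.Jac
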